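import Pool.Agent.Helper16.ET.M_POW
import Pool.Agent.Helper2.ET.M_CMP
import Pool.Agent.Helper2.ET.M_IND
import Pool.Agent.Helper12.ET.M_ETA
import Pool.Agent.Helper24.ET.M_BAS
import Pool.Agent.Helper29.ET.M_RNK
import Pool.Agent.Helper38.ET.M_ISO
import Pool.Agent.Helper60.ET.M_STEP
import Pool.Agent.Helper76.ET.M_FIN
import Pool.Agent.Helper80.ET.M_MAT
import Pool.Agent.Helper84.ET.M_IDM

/-!
# MP_b1e6de_al: completion of unimodular rows over finite etale covers of degree prime to `p`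

Let `p > r ≥ 2` be a prime and `q = p ^ e` a power of `p` with `q ^ (r + 1) ≡ 1` modulo `r!`
(such `e` exist: first part).  Let `A` be any commutative ring with `p = 0` and `v` a unimodular row of
length `r + 1` over `A`.  Then there is a finite etale `A`-algebra `B` of constant rank
`(q^2 - 1)(q^3 - 1) ... (q^r - 1)`, which is prime to `p`, such that `v` is the first row of a matrix of
determinant `1` over `B`.
-/

set_option autoImplicit false

namespace Pool.Agent.Results.MP_b1e6de_al.EtaleCompletion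

open Pool.Agent.Helper93.ET

/-- all modules put together -/
theorem fin_all : StFIN :=
  Pool.Agent.Helper76.ET.hFIN Pool.Agent.Helper16.ET.hPOW
    (Pool.Agent.Helper2.ET.hIND
      (Pool.Agent.Helper60.ET.hSTEP Pool.Agent.Helper80.ET.hMAT Pool.Agent.Helper24.ET.hBAS
        Pool.Agent.Helper12.ET.hETA (Pool.Agent.Helper38.ET.hISO Pool.Agent.Helper80.ET.hMAT)
        Pool.Agent.Helper84.ET.hIDM)
      Pool.Agent.Helper29.ET.hRNK)
    Pool.Agent.Helper2.ET.hCMP

/-- for `p > r` some power `q` of `p` is congruent to `1` modulo `r!` -/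
theorem exists_exponent (p r : ℕ) (hp : p.Prime) (hr : r < p) :
    ∃ e : ℕ, 1 ≤ e ∧ (p ^ e) ^ (r + 1) ≡ 1 [MOD r.factorial] := by
  have hc : Nat.Coprime p r.factorial :=
    (hp.coprime_iff_not_dvd).2 fun h => absurd ((hp.dvd_factorial).1 h) (not_le.2 hr)
  refine ⟨Nat.totient r.factorial, Nat.totient_pos.2 (Nat.factorial_pos r), ?_⟩
  have h := (Nat.ModEq.pow_totient hc).pow (r + 1)
  rwa [one_pow] at h

/-- the rank is prime to `p` -/
theorem coprime_rank (p e r : ℕ) (hp : p.Prime) (he : 1 ≤ e) :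
    Nat.Coprime (∏ i ∈ Finset.Icc 2 r, ((p ^ e) ^ i - 1)) p := by
  refine Nat.Coprime.prod_left fun i hi => ?_
  have hi2 : 2 ≤ i := (Finset.mem_Icc.1 hi).1
  rw [Nat.coprime_comm, hp.coprime_iff_not_dvd]
  intro h
  have h1 : p ∣ (p ^ e) ^ i := dvd_pow (dvd_pow_self p (by omega)) (by omega)
  have h2 : 1 ≤ (p ^ e) ^ i := Nat.one_le_pow _ _ (Nat.pow_pos hp.pos)
  have h3 : p ∣ 1 := by
    have := Nat.dvd_sub h1 h
    rwa [Nat.sub_sub_self h2] at this
  exact hp.one_lt.ne' (Nat.dvd_one.1 h3)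

/-- unimodular rows of length `r + 1` in characteristic `p > r` become completable over a finite etale
cover of degree prime to `p` -/
theorem result (p r : ℕ) (hp : p.Prime) (hr : 2 ≤ r) (hpr : r < p) :
    (∃ e : ℕ, 1 ≤ e ∧ (p ^ e) ^ (r + 1) ≡ 1 [MOD r.factorial]) ∧
    ∀ e : ℕ, 1 ≤ e → (p ^ e) ^ (r + 1) ≡ 1 [MOD r.factorial] →
      Nat.Coprime (∏ i ∈ Finset.Icc 2 r, ((p ^ e) ^ i - 1)) p ∧
      ∀ (A : Type) [CommRing A], (p : A) = 0 →
        ∀ v : Fin (r + 1) → A, Ideal.span (Set.range v) = ⊤ →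
          ∃ (B : Type) (_ : CommRing B) (_ : Algebra A B),
            Algebra.Etale A B ∧ Module.Finite A B ∧
            (∀ x : PrimeSpectrum A, Module.rankAtStalk (R := A) B x =
              ∏ i ∈ Finset.Icc 2 r, ((p ^ e) ^ i - 1)) ∧
            ∃ M : Matrix (Fin (r + 1)) (Fin (r + 1)) B, M.det = 1 ∧
              ∀ j, M 0 j = algebraMap A B (v j) := by
  refine ⟨exists_exponent p r hp hpr, fun e he hq => ⟨coprime_rank p e r hp he, ?_⟩⟩
  intro A _ hA v hv
  exact fin_all A p e r hp hA he hr hq v hv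

end Pool.Agent.Results.MP_b1e6de_al.EtaleCompletion
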