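import Pool.Agent.Helper88.GU2.All

/-!
# Completing unimodular rows over graded subalgebras: free grading actions

`R` is a Noetherian local ring of dimension at most `d`, `A` an `R`-subalgebra of `R[X_1, .., X_n]` every
finite subset of which is contained in a finitely generated graded subalgebra `A'` of `A` on which the grading
group acts freely off the vertex (for instance: `A` is generated by forms of one degree), the residue field of
`R` is infinite (or the closed fibres of the algebras `A'` have dimension at most `r - 1`), `d + n ≤ 2 r - 1`,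
and `r!` is a unit of `R`.  Then `Um_{r+1}(A) = e_1 SL_{r+1}(A)`.  For `r = d` this is the question for these
algebras and all `n ≤ d - 1`.

The proof is in the modules `Pool.Agent.*.GU2.*`, it uses the modules `Pool.Agent.*.GU.*`.  The special case of
algebras generated by forms of one degree is `Pool.Agent.Helper88.GU.aYG`.
-/

set_option autoImplicit false

namespace Pool.Agent.Results.MP_b1e6de_al.FreeGrading

open Pool.Agent.Helper88.GU

universe u

/-- `Um_{r+1}(A) = e_1 SL_{r+1}(A)` for graded subalgebras with a grading action which is free off the vertex,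
`dim R + n ≤ 2 r - 1`. -/
theorem result (R : Type u) [CommRing R] [IsLocalRing R] [IsNoetherianRing R] (d n r : ℕ)
    (hr : 2 ≤ r) (hd : 1 ≤ d) (hdim : ringKrullDim R ≤ d) (hn : d + n + 1 ≤ 2 * r)
    (hfac : IsUnit (r.factorial : R)) (A : Subalgebra R (MvPolynomial (Fin n) R))
    (hA : ∀ S : Finset (MvPolynomial (Fin n) R), (S : Set (MvPolynomial (Fin n) R)) ⊆ A →
      ∃ (A' : Subalgebra R (MvPolynomial (Fin n) R)) (e : ℕ), A' ≤ A ∧
        (S : Set (MvPolynomial (Fin n) R)) ⊆ A' ∧ A'.FG ∧ IsGraded A' ∧ 1 ≤ e ∧
        FreeAction e A' ∧ FibreCond r A') :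
    {v : Fin (r + 1) → A | Ideal.span (Set.range v) = ⊤} =
      Set.range (fun M : Matrix.SpecialLinearGroup (Fin (r + 1)) A =>
        (M : Matrix (Fin (r + 1)) (Fin (r + 1)) A) 0) := by
  ext v
  constructor
  · intro hv
    have h1 : (1 : A) ∈ Ideal.span (Set.range v) := by
      rw [show Ideal.span (Set.range v) = ⊤ from hv]
      exact Submodule.mem_top
    obtain ⟨w, hw⟩ := (Ideal.mem_span_range_iff_exists_fun).1 h1
    obtain ⟨M, hM, hM0⟩ := hYH.{u} Pool.Agent.Helper91.GU.aB7.{u} aYA.{u} aYD.{u} aYE.{u} R d n r hr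
      hd hdim hn hfac A hA v w (by
        rw [← hw]
        exact Finset.sum_congr rfl fun j _ => mul_comm _ _)
    exact ⟨⟨M, hM⟩, funext hM0⟩
  · rintro ⟨M, rfl⟩
    refine (Ideal.eq_top_iff_one _).2 (Ideal.mem_span_range_iff_exists_fun.2 ?_)
    have hM : (M : Matrix (Fin (r + 1)) (Fin (r + 1)) A) *
        (M : Matrix (Fin (r + 1)) (Fin (r + 1)) A).adjugate = 1 := by
      rw [Matrix.mul_adjugate, M.det_coe, one_smul]
    have h2 := congrFun (congrFun hM 0) 0
    rw [Matrix.mul_apply, Matrix.one_apply_eq] at h2
    refine ⟨fun j => (M : Matrix (Fin (r + 1)) (Fin (r + 1)) A).adjugate j 0, ?_⟩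
    exact (Finset.sum_congr rfl fun j _ => mul_comm _ _).trans h2

end Pool.Agent.Results.MP_b1e6de_al.FreeGrading
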