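import Pool.Agent.Helper75.FU.All
import Pool.Agent.Helper75.FU.Cls

/-!
# Completing unimodular rows over subalgebras of polynomial rings in characteristic `p > r`

`R` is a Noetherian local ring of prime characteristic `p > r ≥ 2` and of dimension at most `d`, `B` is (isomorphic to)
a graded subalgebra of `R[Z_1, .., Z_m]`, `d + m ≤ 2 r - 2`; for `m = 0` the ring `B` is `R` itself.  Let `A` be a
`B`-subalgebra of `B[X_1, .., X_n]` (`n` arbitrary) such that every element of `A` has a `p^e`-th power which is a
combination of monomials lying in `A`, and every finite set of monomials of `A` lies in a simplicial cone spanned by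
monomials of `A`.  Then `Um_{r+1}(A) = e_1 SL_{r+1}(A)`.

The definitions `PMono`, `Simpl` are in `Pool/Agent/Helper75/FU/StM.lean`.  Classes of algebras with these properties
are in `Pool/Agent/Helper75/FU/Cls.lean`: all subalgebras containing `X_i^(p^e)` for all `i`; all subalgebras spanned by
monomials if `n ≤ 2`, or if they contain a power of every variable, or if their cone is simplicial.
-/

set_option autoImplicit false

namespace Pool.Agent.Results.MP_b1e6de_al.FrobeniusMonomial

open Pool.Agent.Helper75.FU

universe u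

/-- `Um_{r+1}(A) = e_1 SL_{r+1}(A)` in characteristic `p > r` for subalgebras `A` of `B[X_1, .., X_n]` with `PMono` and
`Simpl`, `B` a graded subalgebra of `R[Z_1, .., Z_m]`, `dim R + m ≤ 2 r - 2`, any `n`. -/
theorem result (p r d m n : ℕ) (hp : p.Prime) (hr : 2 ≤ r) (hrp : r < p) (hdm : d + m + 2 ≤ 2 * r)
    (R : Type u) [CommRing R] [IsLocalRing R] [IsNoetherianRing R] [CharP R p]
    (hd : ringKrullDim R ≤ d) (B₀ : Subalgebra R (MvPolynomial (Fin m) R))
    (hB₀ : ∀ f ∈ B₀, ∀ i : ℕ, MvPolynomial.homogeneousComponent i f ∈ B₀)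
    (B : Type u) [CommRing B] (e : B ≃+* B₀)
    (A : Subalgebra B (MvPolynomial (Fin n) B)) (hA : PMono p A) (hA' : Simpl A) :
    {v : Fin (r + 1) → A | Ideal.span (Set.range v) = ⊤} =
      Set.range (fun M : Matrix.SpecialLinearGroup (Fin (r + 1)) A =>
        (M : Matrix (Fin (r + 1)) (Fin (r + 1)) A) 0) := by
  obtain ⟨s, rfl⟩ : ∃ s, r = s + 1 := ⟨r - 1, by omega⟩
  exact final.{u} p s d m n hp (by omega) hrp (by omega) R hd B₀ hB₀ B e A hA hA'

end Pool.Agent.Results.MP_b1e6de_al.FrobeniusMonomial
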