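import Pool.Agent.Helper91.GU.All
import Pool.Agent.Helper91.GU.Final

/-!
# Completing unimodular rows over graded subalgebras: the half range

`R` is a Noetherian local ring of dimension at most `d`, `A` any graded `R`-subalgebra of `R[X_1, .., X_n]` (not
necessarily finitely generated), `s ≥ 1`, `d + n ≤ 2 s`, and `(s+1)!` is a unit of `R`.  Then
`Um_{s+2}(A) = e_1 SL_{s+2}(A)`.  For `s = d - 1` this is the question for all graded subalgebras and all `n ≤ d - 2`.

The proof (modules `Pool.Agent.*.GU.*`): by a local-global principle the claim follows from Theorem S: over a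
Noetherian local ring `L` of dimension at most `2 s` in which `(s+1)!` is a unit every unimodular row of length `s + 2`
over `L[T]` is completable.
-/

set_option autoImplicit false

namespace Pool.Agent.Results.MP_b1e6de_al.HalfRange

universe u

/-- `Um_{s+2}(A) = e_1 SL_{s+2}(A)` for every graded subalgebra `A` of `R[X_1, .., X_n]`, `dim R + n ≤ 2 s`. -/
theorem result (R : Type u) [CommRing R] [IsLocalRing R] [IsNoetherianRing R] (d n s : ℕ)
    (hs : 1 ≤ s) (hd : ringKrullDim R ≤ d) (hn : d + n ≤ 2 * s)
    (hf : IsUnit ((s + 1).factorial : R)) (A : Subalgebra R (MvPolynomial (Fin n) R))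
    (hA : ∀ f ∈ A, ∀ i : ℕ, MvPolynomial.homogeneousComponent i f ∈ A) :
    {v : Fin (s + 2) → A | Ideal.span (Set.range v) = ⊤} =
      Set.range (fun M : Matrix.SpecialLinearGroup (Fin (s + 2)) A =>
        (M : Matrix (Fin (s + 2)) (Fin (s + 2)) A) 0) :=
  Pool.Agent.Helper91.GU.halfRange Pool.Agent.Helper91.GU.aHR.{u} R d n s hs hd hn hf A hA

end Pool.Agent.Results.MP_b1e6de_al.HalfRange
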